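import Mathlib
import Pool.Agent.MP_7742c6_al.H40.Main

set_option autoImplicit false

open scoped ComplexOrder

namespace Pool.Agent.Results.MP_7742c6_al.Pate

/-- The permanent. -/
noncomputable def per {n : ℕ} (A : Matrix (Fin n) (Fin n) ℂ) : ℂ :=
  ∑ σ : Equiv.Perm (Fin n), ∏ t, A t (σ t)

/-- The matrix obtained by deleting row `i` and column `j`. -/
def del {n : ℕ} (A : Matrix (Fin (n + 1)) (Fin (n + 1)) ℂ) (i j : Fin (n + 1)) :
    Matrix (Fin n) (Fin n) ℂ :=
  Matrix.of fun a b => A (i.succAbove a) (j.succAbove b)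

theorem per_eq {n : ℕ} (A : Matrix (Fin n) (Fin n) ℂ) : per A = A.permanent := by
  rw [← Matrix.permanent_transpose]
  rfl

theorem per_conj {n : ℕ} (A B : Matrix (Fin n) (Fin n) ℂ)
    (h : ∀ a b, B a b = (starRingEnd ℂ) (A b a)) : per B = (starRingEnd ℂ) (per A) := by
  rw [per_eq A, Matrix.permanent, per, map_sum]
  refine Finset.sum_congr rfl fun σ _ => ?_
  rw [map_prod]
  exact Finset.prod_congr rfl fun t _ => h _ _

theorem exists_perm {n : ℕ} (σ : Equiv.Perm (Fin (n + 1))) (a : Fin (n + 1)) :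
    ∃ τ : Equiv.Perm (Fin n), ∀ x, σ (a.succAbove x) = (σ a).succAbove (τ x) := by
  let e : {x // x ≠ a} ≃ {y // y ≠ σ a} :=
    Equiv.subtypeEquiv σ fun x => σ.injective.ne_iff.symm
  refine ⟨(finSuccAboveEquiv a).trans (e.trans (finSuccAboveEquiv (σ a)).symm), fun x => ?_⟩
  have h := (finSuccAboveEquiv (σ a)).apply_symm_apply (e (finSuccAboveEquiv a x))
  exact (congrArg Subtype.val h).symm

theorem per_del {n : ℕ} (A : Matrix (Fin (n + 1)) (Fin (n + 1)) ℂ)
    (σ : Equiv.Perm (Fin (n + 1))) (a b : Fin (n + 1)) :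
    ((A.submatrix σ σ).submatrix a.succAbove b.succAbove).permanent = per (del A (σ a) (σ b)) := by
  obtain ⟨τ, hτ⟩ := exists_perm σ a
  obtain ⟨ρ, hρ⟩ := exists_perm σ b
  rw [per_eq, ← Matrix.permanent_permute_cols τ (del A (σ a) (σ b)),
    ← Matrix.permanent_permute_rows ρ ((del A (σ a) (σ b)).submatrix τ id)]
  congr 1
  ext x y
  simp [del, hτ, hρ]

/-- Pate's permanental inequality, for any two distinct indices; both sides are real. -/
theorem result (n : ℕ) (A : Matrix (Fin (n + 1)) (Fin (n + 1)) ℂ) (hA : A.PosSemidef)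
    (i j : Fin (n + 1)) (hij : i ≠ j) :
    ∃ L P : ℝ,
      A i i * per (del A i i) - A i j * per (del A i j) - A j i * per (del A j i)
        + A j j * per (del A j j) = (L : ℂ) ∧
      per A = (P : ℂ) ∧ L ≤ 2 * P := by
  have hH : ∀ a b, A a b = (starRingEnd ℂ) (A b a) := fun a b => (hA.1.apply a b).symm
  have hd : ∀ a b, per (del A a b) = (starRingEnd ℂ) (per (del A b a)) := fun a b =>
    per_conj _ _ fun x y => hH _ _
  refine ⟨(A i i * per (del A i i) - A i j * per (del A i j) - A j i * per (del A j i)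
    + A j j * per (del A j j)).re, (per A).re, ?_, ?_, ?_⟩
  · symm
    rw [← Complex.conj_eq_iff_re]
    simp only [map_add, map_sub, map_mul, ← hH, ← hd]
    ring
  · symm
    rw [← Complex.conj_eq_iff_re]
    exact (per_conj A A hH).symm
  · obtain ⟨m, rfl⟩ : ∃ m, n = m + 1 := by
      rcases n with _ | m
      · exact absurd (Subsingleton.elim (α := Fin 1) i j) hij
      · exact ⟨m, rfl⟩
    obtain ⟨σ, h0, h1⟩ : ∃ σ : Equiv.Perm (Fin (m + 2)), σ 0 = i ∧ σ 1 = j := by
      refine ⟨(Equiv.swap 1 (Equiv.swap 0 i j)).trans (Equiv.swap 0 i), ?_, by simp⟩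
      have h2 : (0 : Fin (m + 2)) ≠ Equiv.swap 0 i j := by
        intro h
        apply hij
        have := congrArg (Equiv.swap 0 i) h
        simpa using this
      rw [Equiv.trans_apply, Equiv.swap_apply_of_ne_of_ne (by simp) h2, Equiv.swap_apply_left]
    have h := MP_7742c6_al.H40.pate m (A.submatrix σ σ) (hA.submatrix σ)
    rw [per_del, per_del, per_del, per_del] at h
    have hp : (A.submatrix σ σ).permanent = per A := by
      rw [per_eq, ← Matrix.permanent_permute_cols σ A,
        ← Matrix.permanent_permute_rows σ (A.submatrix σ id)]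
      rfl
    rw [hp] at h
    simpa only [Matrix.submatrix_apply, h0, h1] using h

end Pool.Agent.Results.MP_7742c6_al.Pate
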